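import Mathlib

/-! The Ramanujan–Petersson bound for the Hecke characters of weight 2 of `GL₂` over all number fields:
weak bounds in large degrees, or for few primes above `p`, decide. Known facts used as hypotheses
(`Facts`): `|θ(S_℘)| = 1`; base change along cyclic extensions of odd degree with prescribed splitting
(Langlands; Grunwald, Wang). -/

set_option autoImplicit false

namespace Pool.Agent.Results.MP_4819b8_nt.FewPrimesAboveP

open NumberField IsDedekindDomain

/-- the prime ideals of the number field `K` -/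
abbrev Pr (K : Type) [Field K] : Type := HeightOneSpectrum (𝓞 K)

/-- the norm of a prime ideal -/
noncomputable def nrm {K : Type} [Field K] [NumberField K] (v : Pr K) : ℝ :=
  (Ideal.absNorm v.asIdeal : ℝ)

/-- The nontrivial characters `θ` of the Hecke algebras `𝕋_1(𝔫)`, for all levels `𝔫`, over the number
fields `K`: the level, and the values `θ(T_℘)` and `θ(S_℘)`. -/
structure Characters where
  Ch : ∀ (K : Type) [Field K] [NumberField K], Type
  level : ∀ {K : Type} [Field K] [NumberField K], Ch K → Ideal (𝓞 K)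
  T : ∀ {K : Type} [Field K] [NumberField K], Ch K → Pr K → ℂ
  S : ∀ {K : Type} [Field K] [NumberField K], Ch K → Pr K → ℂ

section
variable (D : Characters) {K : Type} [Field K] [NumberField K]

/-- the prime ideal `v` does not divide the level of `θ` -/
def Good (θ : D.Ch K) (v : Pr K) : Prop := ¬ D.level θ ≤ v.asIdeal

/-- `a` and `b` are the roots of `X ^ 2 - θ(T_v) X + θ(S_v) N(v)` -/
def Pair (θ : D.Ch K) (v : Pr K) (a b : ℂ) : Prop :=
  a + b = D.T θ v ∧ a * b = D.S θ v * nrm v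

/-- `θ'` is the base change of `θ` at the primes in `A`, which split completely in `L`, and in `B`,
which are inert in `L`. -/
structure IsBaseChange {L : Type} [Field L] [NumberField L] [Algebra K L] (θ : D.Ch K)
    (θ' : D.Ch L) (A B : Finset (Pr K)) : Prop where
  split : ∀ v ∈ A, {w : Pr L | w.under (𝓞 K) = v}.ncard = Module.finrank K L
  splitNorm : ∀ v ∈ A, ∀ w : Pr L, w.under (𝓞 K) = v → nrm w = nrm v
  splitValue : ∀ v ∈ A, Good D θ v → ∀ w : Pr L, w.under (𝓞 K) = v →
    Good D θ' w ∧ D.T θ' w = D.T θ v ∧ D.S θ' w = D.S θ v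
  inert : ∀ v ∈ B, {w : Pr L | w.under (𝓞 K) = v}.ncard = 1
  inertNorm : ∀ v ∈ B, ∀ w : Pr L, w.under (𝓞 K) = v → nrm w = nrm v ^ Module.finrank K L
  inertValue : ∀ v ∈ B, Good D θ v → ∀ w : Pr L, w.under (𝓞 K) = v →
    Good D θ' w ∧ ∀ a b : ℂ, Pair D θ v a b →
      Pair D θ' w (a ^ Module.finrank K L) (b ^ Module.finrank K L)

end

/-- Known facts: `|θ(S_℘)| = 1`, and for odd `f` and disjoint finite sets `A`, `B` of primes there is an
extension of degree `f` (it may be taken cyclic) in which the primes in `A` split completely and the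
primes in `B` are inert, and the base change of `θ` exists. -/
structure Facts (D : Characters) : Prop where
  norm_S : ∀ (K : Type) [Field K] [NumberField K] (θ : D.Ch K) (v : Pr K), Good D θ v →
    ‖D.S θ v‖ = 1
  baseChange : ∀ (K : Type) [Field K] [NumberField K] (θ : D.Ch K) (f : ℕ), Odd f →
    ∀ A B : Finset (Pr K), Disjoint A B → ∃ (L : Type) (_ : Field L) (_ : NumberField L)
      (_ : Algebra K L) (θ' : D.Ch L), Module.finrank K L = f ∧ IsBaseChange D θ θ' A B

/-- The bound of the question, for all characters. -/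
def Ramanujan (D : Characters) : Prop :=
  ∀ (K : Type) [Field K] [NumberField K] (θ : D.Ch K) (v : Pr K), Good D θ v →
    ‖D.T θ v‖ ≤ 2 * nrm v ^ (1 / 2 : ℝ)

/-- The bound of the question at the primes above `p`. -/
def RamanujanAt (D : Characters) (p : ℕ) : Prop :=
  ∀ (K : Type) [Field K] [NumberField K] (θ : D.Ch K) (v : Pr K), (p : 𝓞 K) ∈ v.asIdeal →
    Good D θ v → ‖D.T θ v‖ ≤ 2 * nrm v ^ (1 / 2 : ℝ)

/-- Weak bounds in some large degrees: for all `d ≥ 1` and `ε > 0` there is an odd `f` such that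
`|θ(T_℘)| ≤ e^(ε f) N(℘)^(1/2 + ε)` over all fields of degree `f d`. -/
def WeakBounds (D : Characters) : Prop :=
  ∀ d : ℕ, 0 < d → ∀ ε : ℝ, 0 < ε → ∃ f : ℕ, Odd f ∧
    ∀ (K : Type) [Field K] [NumberField K] (θ : D.Ch K) (v : Pr K),
      Module.finrank ℚ K = f * d → Good D θ v →
        ‖D.T θ v‖ ≤ Real.exp (ε * f) * nrm v ^ (1 / 2 + ε)

/-- The good primes above `p`. -/
def goodAbove (D : Characters) (p : ℕ) {K : Type} [Field K] [NumberField K] (θ : D.Ch K) :
    Set (Pr K) := {v | (p : 𝓞 K) ∈ v.asIdeal ∧ Good D θ v}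

/-- Weak bounds for few primes above `p`: for all `ε > 0` there is `C` such that for every `g` at
least `g + 1` primes above `p` satisfy `|θ(T_℘)| ≤ C N(℘)^(1/2 + ε)`, for all characters with
sufficiently many good primes above `p`. -/
def FewPrimes (D : Characters) (p : ℕ) : Prop :=
  ∀ ε : ℝ, 0 < ε → ∃ C : ℝ, ∀ g : ℕ, ∃ M : ℕ,
    ∀ (K : Type) [Field K] [NumberField K] (θ : D.Ch K), M ≤ (goodAbove D p θ).ncard →
      g < {v | v ∈ goodAbove D p θ ∧ ‖D.T θ v‖ ≤ C * nrm v ^ (1 / 2 + ε)}.ncard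

/-- Still weaker bounds for few primes above `p`: for every `g` there is `M` such that for all `d ≥ 1` and
`ε > 0` there is an odd `f` such that, for all characters over fields of degree `f d` with at least `M`
good primes above `p`, more than `g` of them satisfy `|θ(T_℘)| ≤ e^(ε f) N(℘)^(1/2 + ε)`. -/
def FewPrimesWeak (D : Characters) (p : ℕ) : Prop :=
  ∀ g : ℕ, ∃ M : ℕ, ∀ d : ℕ, 0 < d → ∀ ε : ℝ, 0 < ε → ∃ f : ℕ, Odd f ∧
    ∀ (K : Type) [Field K] [NumberField K] (θ : D.Ch K), Module.finrank ℚ K = f * d →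
      M ≤ (goodAbove D p θ).ncard →
        g < {v | v ∈ goodAbove D p θ ∧
          ‖D.T θ v‖ ≤ Real.exp (ε * f) * nrm v ^ (1 / 2 + ε)}.ncard

theorem nrm_two {K : Type} [Field K] [NumberField K] (v : Pr K) : 2 ≤ nrm v := by
  unfold nrm
  have h := HeightOneSpectrum.one_lt_absNorm v
  exact_mod_cast h

theorem exists_pair (D : Characters) {K : Type} [Field K] [NumberField K] (θ : D.Ch K) (v : Pr K) :
    ∃ a b : ℂ, Pair D θ v a b := by
  obtain ⟨r, hr⟩ := IsAlgClosed.exists_pow_nat_eq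
    (D.T θ v ^ 2 - 4 * (D.S θ v * nrm v)) (n := 2) (by norm_num)
  refine ⟨(D.T θ v + r) / 2, (D.T θ v - r) / 2, by ring, ?_⟩
  have h : (D.T θ v + r) / 2 * ((D.T θ v - r) / 2) = (D.T θ v ^ 2 - r ^ 2) / 4 := by ring
  rw [h, hr]; ring

/-- a violation gives a large root -/
theorem exists_large {D : Characters} (hD : Facts D) {K : Type} [Field K] [NumberField K]
    {θ : D.Ch K} {v : Pr K} (hv : Good D θ v) (h : 2 * nrm v ^ (1 / 2 : ℝ) < ‖D.T θ v‖) :
    ∃ a b : ℂ, Pair D θ v a b ∧ nrm v ^ (1 / 2 : ℝ) < ‖a‖ ∧ ‖b‖ < nrm v ^ (1 / 2 : ℝ) := by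
  obtain ⟨a, b, hab⟩ := exists_pair D θ v
  have hN := nrm_two v
  have hN0 : 0 < nrm v := by linarith
  set s : ℝ := nrm v ^ (1 / 2 : ℝ) with hs
  have hs0 : 0 < s := Real.rpow_pos_of_pos hN0 _
  have hss : s * s = nrm v := by
    rw [hs, ← Real.rpow_add hN0]; norm_num
  have hprod : ‖a‖ * ‖b‖ = s * s := by
    rw [← norm_mul, hab.2, norm_mul, hD.norm_S K θ v hv, one_mul, hss]
    rw [Complex.norm_real, Real.norm_of_nonneg hN0.le]
  have hsum : 2 * s < ‖a‖ + ‖b‖ := lt_of_lt_of_le (hab.1 ▸ h) (norm_add_le a b)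
  by_cases h1 : s < ‖a‖
  · refine ⟨a, b, hab, h1, ?_⟩
    by_contra h2
    push Not at h2
    nlinarith
  · push Not at h1
    have h2 : s < ‖b‖ := by linarith
    refine ⟨b, a, ⟨by rw [add_comm]; exact hab.1, by rw [mul_comm]; exact hab.2⟩, h2, ?_⟩
    by_contra h3
    push Not at h3
    nlinarith

theorem growth {a b : ℂ} {r : ℝ} (hr : 0 < r) (hb : ‖b‖ ≤ r) (ha : r < ‖a‖) (C : ℝ) :
    ∃ F : ℕ, ∀ f : ℕ, F ≤ f → C * r ^ f < ‖a ^ f + b ^ f‖ := by
  have h1 : 1 < ‖a‖ / r := (one_lt_div hr).2 ha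
  obtain ⟨F, hF⟩ := Filter.eventually_atTop.1
    ((tendsto_pow_atTop_atTop_of_one_lt h1).eventually_gt_atTop (C + 1))
  refine ⟨F, fun f hf => ?_⟩
  have h2 : C + 1 < (‖a‖ / r) ^ f := hF f hf
  rw [div_pow, lt_div_iff₀ (pow_pos hr f)] at h2
  have h3 : ‖a‖ ^ f - ‖b‖ ^ f ≤ ‖a ^ f + b ^ f‖ := by
    have h4 := norm_sub_norm_le (a ^ f) (-(b ^ f))
    rw [norm_neg, norm_pow, norm_pow, sub_neg_eq_add] at h4
    exact h4
  have h5 : ‖b‖ ^ f ≤ r ^ f := pow_le_pow_left₀ (norm_nonneg b) hb f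
  linarith

/-- base change to an extension in which `v` is inert -/
theorem inert_step {D : Characters} (hD : Facts D) {K : Type} [Field K] [NumberField K]
    (θ : D.Ch K) (v : Pr K) (hv : Good D θ v) {a b : ℂ} (hab : Pair D θ v a b) {f : ℕ}
    (hf : Odd f) : ∃ (L : Type) (_ : Field L) (_ : NumberField L) (_ : Algebra K L) (θ' : D.Ch L)
      (w : Pr L), Module.finrank ℚ L = f * Module.finrank ℚ K ∧ w.under (𝓞 K) = v ∧
        Good D θ' w ∧ nrm w = nrm v ^ f ∧ D.T θ' w = a ^ f + b ^ f := by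
  obtain ⟨L, _, _, _, θ', hL, h⟩ := hD.baseChange K θ f hf ∅ {v} (Finset.disjoint_empty_left _)
  obtain ⟨w, hw⟩ := Set.ncard_eq_one.1 (h.inert v (Finset.mem_singleton_self v))
  have hw' : w.under (𝓞 K) = v := by
    have : w ∈ {w : Pr L | w.under (𝓞 K) = v} := by rw [hw]; exact Set.mem_singleton w
    exact this
  obtain ⟨h1, h2⟩ := h.inertValue v (Finset.mem_singleton_self v) hv w hw'
  have h3 := h.inertNorm v (Finset.mem_singleton_self v) w hw'
  refine ⟨L, _, _, _, θ', w, ?_, hw', h1, by rw [h3, hL], ?_⟩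
  · rw [← Module.finrank_mul_finrank ℚ K L, hL, mul_comm]
  · rw [← (h2 a b hab).1, hL]

theorem ramanujan_iff {D : Characters} (hD : Facts D) : Ramanujan D ↔ WeakBounds D := by
  constructor
  · intro h d _ ε hε
    obtain ⟨k, hk⟩ := exists_nat_gt (Real.log 2 / ε)
    refine ⟨2 * k + 1, odd_two_mul_add_one k, fun K _ _ θ v _ hv => (h K θ v hv).trans ?_⟩
    have hN := nrm_two v
    have h1 : (2 : ℝ) ≤ Real.exp (ε * (2 * k + 1 : ℕ)) := by
      have h2 : Real.log 2 ≤ ε * (2 * k + 1 : ℕ) := by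
        rw [div_lt_iff₀ hε] at hk
        push_cast
        have : (0 : ℝ) ≤ k := Nat.cast_nonneg k
        nlinarith
      calc (2 : ℝ) = Real.exp (Real.log 2) := (Real.exp_log (by norm_num)).symm
        _ ≤ _ := Real.exp_le_exp.2 h2
    exact mul_le_mul h1 (Real.rpow_le_rpow_of_exponent_le (by linarith) (by linarith))
      (Real.rpow_nonneg (by linarith) _) (Real.exp_pos _).le
  · intro h K _ _ θ v hv
    by_contra hcon
    push Not at hcon
    obtain ⟨a, b, hab, ha, hb⟩ := exists_large hD hv hcon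
    have hN := nrm_two v
    have hN0 : 0 < nrm v := by linarith
    have hs0 : 0 < nrm v ^ (1 / 2 : ℝ) := Real.rpow_pos_of_pos hN0 _
    have ha0 : 0 < ‖a‖ := hs0.trans ha
    have hlogN : 0 < Real.log (nrm v) := Real.log_pos (by linarith)
    set x : ℝ := Real.log ‖a‖ - 1 / 2 * Real.log (nrm v) with hx
    have hx0 : 0 < x := by
      have h1 := Real.log_lt_log hs0 ha
      rw [Real.log_rpow hN0] at h1
      linarith
    set ε : ℝ := x / (2 * (1 + Real.log (nrm v))) with hε
    have hε0 : 0 < ε := by positivity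
    have hεx : ε * (1 + Real.log (nrm v)) < x := by
      have h1 : ε * (1 + Real.log (nrm v)) = x / 2 := by rw [hε]; field_simp
      linarith
    set r : ℝ := Real.exp ε * nrm v ^ (1 / 2 + ε) with hr
    have hr0 : 0 < r := mul_pos (Real.exp_pos _) (Real.rpow_pos_of_pos hN0 _)
    have hra : r < ‖a‖ := by
      rw [← Real.log_lt_log_iff hr0 ha0, hr, Real.log_mul (Real.exp_pos _).ne'
        (Real.rpow_pos_of_pos hN0 _).ne', Real.log_exp, Real.log_rpow hN0]
      linarith
    have hbr : ‖b‖ ≤ r := by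
      refine hb.le.trans ?_
      calc nrm v ^ (1 / 2 : ℝ) ≤ nrm v ^ (1 / 2 + ε) :=
            Real.rpow_le_rpow_of_exponent_le (by linarith) (by linarith)
        _ = 1 * nrm v ^ (1 / 2 + ε) := (one_mul _).symm
        _ ≤ r := mul_le_mul_of_nonneg_right (Real.one_le_exp hε0.le)
            (Real.rpow_nonneg hN0.le _)
    obtain ⟨F, hF⟩ := growth hr0 hbr hra 1
    have hd : 0 < Module.finrank ℚ K := Module.finrank_pos
    obtain ⟨f, hf, hbound⟩ := h ((2 * F + 1) * Module.finrank ℚ K) (by positivity) ε hε0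
    have hodd : Odd (f * (2 * F + 1)) := hf.mul (odd_two_mul_add_one F)
    obtain ⟨L, _, _, _, θ', w, hdeg, _, hgood, hnorm, hT⟩ := inert_step hD θ v hv hab hodd
    have h1 := hbound L θ' w (by rw [hdeg, mul_assoc]) hgood
    have hfpos : 1 ≤ f := hf.pos
    have h2 := hF (f * (2 * F + 1)) (by nlinarith)
    rw [one_mul, ← hT] at h2
    have h3 : Real.exp (ε * f) * nrm w ^ (1 / 2 + ε) ≤ r ^ (f * (2 * F + 1)) := by
      rw [hr, mul_pow, ← Real.exp_nat_mul, hnorm, ← Real.rpow_natCast (nrm v),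
        ← Real.rpow_mul hN0.le, ← Real.rpow_natCast (nrm v ^ (1 / 2 + ε)), ← Real.rpow_mul hN0.le,
        mul_comm ((f * (2 * F + 1) : ℕ) : ℝ) (1 / 2 + ε)]
      refine mul_le_mul_of_nonneg_right (Real.exp_le_exp.2 ?_) (Real.rpow_nonneg hN0.le _)
      have h4 : (f : ℝ) ≤ ((f * (2 * F + 1) : ℕ) : ℝ) := by
        exact_mod_cast (by nlinarith : f ≤ f * (2 * F + 1))
      nlinarith
    linarith

theorem above_finite (p : ℕ) (hp : p.Prime) (K : Type) [Field K] [NumberField K] :
    {v : Pr K | (p : 𝓞 K) ∈ v.asIdeal}.Finite := by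
  have h0 : Ideal.span {(p : 𝓞 K)} ≠ 0 := by
    rw [Ne, Ideal.zero_eq_bot, Ideal.span_singleton_eq_bot]
    exact_mod_cast hp.ne_zero
  refine (Ideal.finite_factors h0).subset fun v hv => ?_
  exact Ideal.dvd_span_singleton.2 hv

theorem mem_under {K L : Type} [Field K] [NumberField K] [Field L] [NumberField L] [Algebra K L]
    (p : ℕ) (w : Pr L) : (p : 𝓞 K) ∈ (w.under (𝓞 K)).asIdeal ↔ (p : 𝓞 L) ∈ w.asIdeal := by
  rw [HeightOneSpectrum.under_asIdeal, Ideal.mem_comap, map_natCast]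

theorem ramanujanAt_iff {D : Characters} (hD : Facts D) (p : ℕ) (hp : p.Prime) :
    RamanujanAt D p ↔ FewPrimes D p := by
  classical
  constructor
  · intro h ε hε
    refine ⟨2, fun g => ⟨g + 1, fun K _ _ θ hM => ?_⟩⟩
    have h1 : {v | v ∈ goodAbove D p θ ∧ ‖D.T θ v‖ ≤ 2 * nrm v ^ (1 / 2 + ε)} =
        goodAbove D p θ := by
      ext v
      refine ⟨fun hv => hv.1, fun hv => ⟨hv, (h K θ v hv.1 hv.2).trans ?_⟩⟩
      have hN := nrm_two v
      exact mul_le_mul_of_nonneg_left
        (Real.rpow_le_rpow_of_exponent_le (by linarith) (by linarith)) (by norm_num)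
    rw [h1]
    omega
  · intro h K _ _ θ v hpv hv
    by_contra hcon
    push Not at hcon
    obtain ⟨a, b, hab, ha, hb⟩ := exists_large hD hv hcon
    have hN := nrm_two v
    have hN0 : 0 < nrm v := by linarith
    have hs0 : 0 < nrm v ^ (1 / 2 : ℝ) := Real.rpow_pos_of_pos hN0 _
    have ha0 : 0 < ‖a‖ := hs0.trans ha
    have hlogN : 0 < Real.log (nrm v) := Real.log_pos (by linarith)
    set x : ℝ := Real.log ‖a‖ - 1 / 2 * Real.log (nrm v) with hx
    have hx0 : 0 < x := by
      have h1 := Real.log_lt_log hs0 ha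
      rw [Real.log_rpow hN0] at h1
      linarith
    set ε : ℝ := x / (2 * Real.log (nrm v)) with hε
    have hε0 : 0 < ε := by positivity
    have hεx : ε * Real.log (nrm v) < x := by
      have h1 : ε * Real.log (nrm v) = x / 2 := by rw [hε]; field_simp
      linarith
    have hr0 : 0 < nrm v ^ (1 / 2 + ε) := Real.rpow_pos_of_pos hN0 _
    have hra : nrm v ^ (1 / 2 + ε) < ‖a‖ := by
      rw [← Real.log_lt_log_iff hr0 ha0, Real.log_rpow hN0]
      linarith
    have hbr : ‖b‖ ≤ nrm v ^ (1 / 2 + ε) := hb.le.trans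
      (Real.rpow_le_rpow_of_exponent_le (by linarith) (by linarith))
    obtain ⟨C, hC⟩ := h ε hε0
    obtain ⟨F, hF⟩ := growth hr0 hbr hra C
    obtain ⟨L, _, _, _, θ₁, w, hdeg, hwv, hgood, hnorm, hT⟩ :=
      inert_step hD θ v hv hab (odd_two_mul_add_one F)
    have hw1 : C * nrm w ^ (1 / 2 + ε) < ‖D.T θ₁ w‖ := by
      have h1 := hF (2 * F + 1) (by omega)
      rw [hT, hnorm, ← Real.rpow_natCast (nrm v), ← Real.rpow_mul hN0.le,
        mul_comm ((2 * F + 1 : ℕ) : ℝ) (1 / 2 + ε), Real.rpow_mul hN0.le, Real.rpow_natCast]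
      exact h1
    have hpw : (p : 𝓞 L) ∈ w.asIdeal := by
      rw [← mem_under (K := K) p w, hwv]; exact hpv
    have hfin := above_finite p hp L
    set X : Finset (Pr L) := hfin.toFinset with hX
    obtain ⟨M, hM⟩ := hC X.card
    obtain ⟨L₂, _, _, _, θ₂, hL₂, hbc⟩ := hD.baseChange L θ₁ (2 * M + 1) (odd_two_mul_add_one M)
      {w} (X.erase w) (Finset.disjoint_singleton_left.2 (Finset.notMem_erase w X))
    have hfin₂ := above_finite p hp L₂
    have hG : M ≤ (goodAbove D p θ₂).ncard := by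
      have h1 : {u : Pr L₂ | u.under (𝓞 L) = w} ⊆ goodAbove D p θ₂ := by
        intro u hu
        have hu' : u.under (𝓞 L) = w := hu
        refine ⟨?_, (hbc.splitValue w (Finset.mem_singleton_self w) hgood u hu').1⟩
        rw [← mem_under (K := L) p u, hu']; exact hpw
      have h2 := Set.ncard_le_ncard h1 (hfin₂.subset fun u hu => hu.1)
      rw [hbc.split w (Finset.mem_singleton_self w), hL₂] at h2
      omega
    have h3 := hM L₂ θ₂ hG
    have h4 : {u | u ∈ goodAbove D p θ₂ ∧ ‖D.T θ₂ u‖ ≤ C * nrm u ^ (1 / 2 + ε)}.ncard ≤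
        (X : Set (Pr L)).ncard := by
      refine Set.ncard_le_ncard_of_injOn (fun u : Pr L₂ => u.under (𝓞 L)) ?_ ?_
        (Finset.finite_toSet X)
      · rintro u ⟨⟨hu, _⟩, _⟩
        rw [Finset.mem_coe, hX, Set.Finite.mem_toFinset]
        exact (mem_under (K := L) p u).2 hu
      · rintro u ⟨⟨hu, _⟩, hub⟩ u' ⟨⟨hu', _⟩, _⟩ huu
        have h5 : u.under (𝓞 L) ≠ w := by
          intro h6
          have h7 := hbc.splitValue w (Finset.mem_singleton_self w) hgood u h6
          rw [h7.2.1, hbc.splitNorm w (Finset.mem_singleton_self w) u h6] at hub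
          linarith
        have h6 : u.under (𝓞 L) ∈ X.erase w := by
          rw [Finset.mem_erase, hX, Set.Finite.mem_toFinset]
          exact ⟨h5, (mem_under (K := L) p u).2 hu⟩
        obtain ⟨z, hz⟩ := Set.ncard_eq_one.1 (hbc.inert _ h6)
        have h7 : u ∈ ({z} : Set (Pr L₂)) := by rw [← hz]; rfl
        have h8 : u' ∈ ({z} : Set (Pr L₂)) := by rw [← hz]; exact huu.symm
        rw [Set.mem_singleton_iff] at h7 h8
        rw [h7, h8]
    rw [Set.ncard_coe_finset] at h4
    omega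

theorem two_le_exp {ε : ℝ} (hε : 0 < ε) : ∃ f : ℕ, Odd f ∧ (2 : ℝ) ≤ Real.exp (ε * f) := by
  obtain ⟨k, hk⟩ := exists_nat_gt (Real.log 2 / ε)
  refine ⟨2 * k + 1, odd_two_mul_add_one k, ?_⟩
  have h2 : Real.log 2 ≤ ε * (2 * k + 1 : ℕ) := by
    rw [div_lt_iff₀ hε] at hk
    push_cast
    have : (0 : ℝ) ≤ k := Nat.cast_nonneg k
    nlinarith
  calc (2 : ℝ) = Real.exp (Real.log 2) := (Real.exp_log (by norm_num)).symm
    _ ≤ _ := Real.exp_le_exp.2 h2

theorem ramanujanAt_iff_weak {D : Characters} (hD : Facts D) (p : ℕ) (hp : p.Prime) :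
    RamanujanAt D p ↔ FewPrimesWeak D p := by
  classical
  constructor
  · intro h g
    refine ⟨g + 1, fun d _ ε hε => ?_⟩
    obtain ⟨f, hf, h2⟩ := two_le_exp hε
    refine ⟨f, hf, fun K _ _ θ _ hM => ?_⟩
    have h1 : {v | v ∈ goodAbove D p θ ∧
        ‖D.T θ v‖ ≤ Real.exp (ε * f) * nrm v ^ (1 / 2 + ε)} = goodAbove D p θ := by
      ext v
      refine ⟨fun hv => hv.1, fun hv => ⟨hv, (h K θ v hv.1 hv.2).trans ?_⟩⟩
      have hN := nrm_two v
      exact mul_le_mul h2 (Real.rpow_le_rpow_of_exponent_le (by linarith) (by linarith))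
        (Real.rpow_nonneg (by linarith) _) (Real.exp_pos _).le
    rw [h1]
    omega
  · intro h K _ _ θ v hpv hv
    by_contra hcon
    push Not at hcon
    obtain ⟨a, b, hab, ha, hb⟩ := exists_large hD hv hcon
    have hN := nrm_two v
    have hN0 : 0 < nrm v := by linarith
    have hs0 : 0 < nrm v ^ (1 / 2 : ℝ) := Real.rpow_pos_of_pos hN0 _
    have ha0 : 0 < ‖a‖ := hs0.trans ha
    have hlogN : 0 < Real.log (nrm v) := Real.log_pos (by linarith)
    set x : ℝ := Real.log ‖a‖ - 1 / 2 * Real.log (nrm v) with hx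
    have hx0 : 0 < x := by
      have h1 := Real.log_lt_log hs0 ha
      rw [Real.log_rpow hN0] at h1
      linarith
    set ε : ℝ := x / (2 * (1 + Real.log (nrm v))) with hε
    have hε0 : 0 < ε := by positivity
    have hεx : ε * (1 + Real.log (nrm v)) < x := by
      have h1 : ε * (1 + Real.log (nrm v)) = x / 2 := by rw [hε]; field_simp
      linarith
    set r : ℝ := Real.exp ε * nrm v ^ (1 / 2 + ε) with hr
    have hr0 : 0 < r := mul_pos (Real.exp_pos _) (Real.rpow_pos_of_pos hN0 _)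
    have hra : r < ‖a‖ := by
      rw [← Real.log_lt_log_iff hr0 ha0, hr, Real.log_mul (Real.exp_pos _).ne'
        (Real.rpow_pos_of_pos hN0 _).ne', Real.log_exp, Real.log_rpow hN0]
      linarith
    have hbr : ‖b‖ ≤ r := by
      refine hb.le.trans ?_
      calc nrm v ^ (1 / 2 : ℝ) ≤ nrm v ^ (1 / 2 + ε) :=
            Real.rpow_le_rpow_of_exponent_le (by linarith) (by linarith)
        _ = 1 * nrm v ^ (1 / 2 + ε) := (one_mul _).symm
        _ ≤ r := mul_le_mul_of_nonneg_right (Real.one_le_exp hε0.le)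
            (Real.rpow_nonneg hN0.le _)
    obtain ⟨F, hF⟩ := growth hr0 hbr hra 1
    -- all primes above `p` are inert in `L`, so that their number is `g`
    set XK : Finset (Pr K) := (above_finite p hp K).toFinset with hXK
    obtain ⟨M, hM⟩ := h XK.card
    have hd : 0 < Module.finrank ℚ K := Module.finrank_pos
    obtain ⟨f, hf, hbound⟩ := hM ((2 * F + 1) * ((2 * M + 1) * Module.finrank ℚ K))
      (by positivity) ε hε0
    have hodd : Odd (f * (2 * F + 1)) := hf.mul (odd_two_mul_add_one F)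
    obtain ⟨L, _, _, _, θ₁, hL, hbc₁⟩ := hD.baseChange K θ (f * (2 * F + 1)) hodd ∅ XK
      (Finset.disjoint_empty_left _)
    have hvX : v ∈ XK := by rw [hXK, Set.Finite.mem_toFinset]; exact hpv
    obtain ⟨w, hw⟩ := Set.ncard_eq_one.1 (hbc₁.inert v hvX)
    have hwv : w.under (𝓞 K) = v := by
      have : w ∈ {w : Pr L | w.under (𝓞 K) = v} := by rw [hw]; exact Set.mem_singleton w
      exact this
    obtain ⟨hgood, hpair⟩ := hbc₁.inertValue v hvX hv w hwv
    have hT : D.T θ₁ w = a ^ (f * (2 * F + 1)) + b ^ (f * (2 * F + 1)) := by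
      rw [← (hpair a b hab).1, hL]
    have hnorm : nrm w = nrm v ^ (f * (2 * F + 1)) := by rw [hbc₁.inertNorm v hvX w hwv, hL]
    have hfpos : 1 ≤ f := hf.pos
    have h2 := hF (f * (2 * F + 1)) (by nlinarith)
    rw [one_mul, ← hT] at h2
    have h3 : Real.exp (ε * f) * nrm w ^ (1 / 2 + ε) ≤ r ^ (f * (2 * F + 1)) := by
      rw [hr, mul_pow, ← Real.exp_nat_mul, hnorm, ← Real.rpow_natCast (nrm v),
        ← Real.rpow_mul hN0.le, ← Real.rpow_natCast (nrm v ^ (1 / 2 + ε)), ← Real.rpow_mul hN0.le,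
        mul_comm ((f * (2 * F + 1) : ℕ) : ℝ) (1 / 2 + ε)]
      refine mul_le_mul_of_nonneg_right (Real.exp_le_exp.2 ?_) (Real.rpow_nonneg hN0.le _)
      have h4 : (f : ℝ) ≤ ((f * (2 * F + 1) : ℕ) : ℝ) := by
        exact_mod_cast (by nlinarith : f ≤ f * (2 * F + 1))
      nlinarith
    have hw1 : Real.exp (ε * f) * nrm w ^ (1 / 2 + ε) < ‖D.T θ₁ w‖ := h3.trans_lt h2
    have hpw : (p : 𝓞 L) ∈ w.asIdeal := by
      rw [← mem_under (K := K) p w, hwv]; exact hpv
    set X : Finset (Pr L) := (above_finite p hp L).toFinset with hX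
    have hXcard : X.card ≤ XK.card := by
      have h5 : (X : Set (Pr L)).ncard ≤ (XK : Set (Pr K)).ncard := by
        refine Set.ncard_le_ncard_of_injOn (fun u : Pr L => u.under (𝓞 K)) ?_ ?_
          (Finset.finite_toSet XK)
        · intro u hu
          rw [Finset.mem_coe, hX, Set.Finite.mem_toFinset] at hu
          rw [Finset.mem_coe, hXK, Set.Finite.mem_toFinset]
          exact (mem_under (K := K) p u).2 hu
        · intro u hu u' _ huu
          rw [Finset.mem_coe, hX, Set.Finite.mem_toFinset] at hu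
          have h6 : u.under (𝓞 K) ∈ XK := by
            rw [hXK, Set.Finite.mem_toFinset]; exact (mem_under (K := K) p u).2 hu
          obtain ⟨z, hz⟩ := Set.ncard_eq_one.1 (hbc₁.inert _ h6)
          have h7 : u ∈ ({z} : Set (Pr L)) := by rw [← hz]; rfl
          have h8 : u' ∈ ({z} : Set (Pr L)) := by rw [← hz]; exact huu.symm
          rw [Set.mem_singleton_iff] at h7 h8
          rw [h7, h8]
      rwa [Set.ncard_coe_finset, Set.ncard_coe_finset] at h5
    obtain ⟨L₂, _, _, _, θ₂, hL₂, hbc⟩ := hD.baseChange L θ₁ (2 * M + 1) (odd_two_mul_add_one M)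
      {w} (X.erase w) (Finset.disjoint_singleton_left.2 (Finset.notMem_erase w X))
    have hfin₂ := above_finite p hp L₂
    have hdeg : Module.finrank ℚ L₂ = f * ((2 * F + 1) * ((2 * M + 1) * Module.finrank ℚ K)) := by
      rw [← Module.finrank_mul_finrank ℚ L L₂, ← Module.finrank_mul_finrank ℚ K L, hL, hL₂]
      ring
    have hG : M ≤ (goodAbove D p θ₂).ncard := by
      have h1 : {u : Pr L₂ | u.under (𝓞 L) = w} ⊆ goodAbove D p θ₂ := by
        intro u hu
        have hu' : u.under (𝓞 L) = w := hu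
        refine ⟨?_, (hbc.splitValue w (Finset.mem_singleton_self w) hgood u hu').1⟩
        rw [← mem_under (K := L) p u, hu']; exact hpw
      have h2 := Set.ncard_le_ncard h1 (hfin₂.subset fun u hu => hu.1)
      rw [hbc.split w (Finset.mem_singleton_self w), hL₂] at h2
      omega
    have h3 := hbound L₂ θ₂ hdeg hG
    have h4 : {u | u ∈ goodAbove D p θ₂ ∧
        ‖D.T θ₂ u‖ ≤ Real.exp (ε * f) * nrm u ^ (1 / 2 + ε)}.ncard ≤
        (X : Set (Pr L)).ncard := by
      refine Set.ncard_le_ncard_of_injOn (fun u : Pr L₂ => u.under (𝓞 L)) ?_ ?_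
        (Finset.finite_toSet X)
      · rintro u ⟨⟨hu, _⟩, _⟩
        rw [Finset.mem_coe, hX, Set.Finite.mem_toFinset]
        exact (mem_under (K := L) p u).2 hu
      · rintro u ⟨⟨hu, _⟩, hub⟩ u' ⟨⟨hu', _⟩, _⟩ huu
        have h5 : u.under (𝓞 L) ≠ w := by
          intro h6
          have h7 := hbc.splitValue w (Finset.mem_singleton_self w) hgood u h6
          rw [h7.2.1, hbc.splitNorm w (Finset.mem_singleton_self w) u h6] at hub
          linarith
        have h6 : u.under (𝓞 L) ∈ X.erase w := by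
          rw [Finset.mem_erase, hX, Set.Finite.mem_toFinset]
          exact ⟨h5, (mem_under (K := L) p u).2 hu⟩
        obtain ⟨z, hz⟩ := Set.ncard_eq_one.1 (hbc.inert _ h6)
        have h7 : u ∈ ({z} : Set (Pr L₂)) := by rw [← hz]; rfl
        have h8 : u' ∈ ({z} : Set (Pr L₂)) := by rw [← hz]; exact huu.symm
        rw [Set.mem_singleton_iff] at h7 h8
        rw [h7, h8]
    rw [Set.ncard_coe_finset] at h4
    omega

theorem result (D : Characters) (hD : Facts D) :
    (Ramanujan D ↔ WeakBounds D) ∧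
    ∀ p : ℕ, p.Prime → (RamanujanAt D p ↔ FewPrimes D p) ∧ (RamanujanAt D p ↔ FewPrimesWeak D p) :=
  ⟨ramanujan_iff hD, fun p hp => ⟨ramanujanAt_iff hD p hp, ramanujanAt_iff_weak hD p hp⟩⟩

end Pool.Agent.Results.MP_4819b8_nt.FewPrimesAboveP
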